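import Mathlib
import Pool.Agent.Helper17.VCG.Gen

set_option autoImplicit false

open AlgebraicGeometry

universe u

namespace Pool.Agent.Results.MP_490634_ag.NotComponent

open Pool.Agent.Helper226 Pool.Agent.Helper17.VCG

/-- Ideals `I` of `k[x_1, ..., x_n]` for which `S/I` is a local algebra, supported at an arbitrary
point `v`, with Hilbert function `(1, n, r)`. -/
def HasHF {k : Type u} [Field k] (n r : ℕ) (I : Ideal (MvPolynomial (Fin n) k)) : Prop :=
  ∃ v : Fin n → k, I.radical = pointIdeal v ∧ hilbFn I (pointIdeal v) 0 = 1 ∧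
    hilbFn I (pointIdeal v) 1 = n ∧ hilbFn I (pointIdeal v) 2 = r ∧
    ∀ i, 2 < i → hilbFn I (pointIdeal v) i = 0

lemma isVeryCompressed_iff {k : Type u} [Field k] (n r : ℕ) (hn : 1 ≤ n) (h1 : 1 ≤ r)
    (hr : r ≤ (n + 1).choose 2) (I : Ideal (MvPolynomial (Fin n) k)) :
    IsVeryCompressed (1 + n + r) I ↔ HasHF n r I := by
  have hc1 : (n + 1).choose n = n + 1 := by rw [Nat.choose_succ_self_right]
  have hc2 : (n + 2).choose n = n + 1 + (n + 1).choose 2 := choose_n n
  have e0 : (0 + n - 1).choose (n - 1) = 1 := by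
    rw [zero_add, Nat.choose_self]
  have e1 : (1 + n - 1).choose (n - 1) = n := by
    obtain ⟨m, rfl⟩ := Nat.exists_eq_add_of_le' hn
    rw [show 1 + (m + 1) - 1 = m + 1 by omega, show m + 1 - 1 = m by omega,
      Nat.choose_succ_self_right]
  constructor
  · rintro ⟨v, s, hs1, hs2, hrad, hlow, hs, hhigh⟩
    have hs3 : s = 2 := by
      rcases Nat.lt_trichotomy s 2 with h | h | h
      · exfalso
        have : (n + s).choose n ≤ (n + 1).choose n := Nat.choose_le_choose n (by omega)
        omega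
      · exact h
      · exfalso
        have : (n + 2).choose n ≤ (n + s - 1).choose n := Nat.choose_le_choose n (by omega)
        omega
    subst hs3
    refine ⟨v, hrad, ?_, ?_, ?_, hhigh⟩
    · rw [hlow 0 (by norm_num), e0]
    · rw [hlow 1 (by norm_num), e1]
    · rw [hs, show n + 2 - 1 = n + 1 by omega, hc1]
      omega
  · rintro ⟨v, hrad, h0, h1', h2, hhigh⟩
    refine ⟨v, 2, ?_, ?_, hrad, ?_, ?_, hhigh⟩
    · rw [show n + 2 - 1 = n + 1 by omega, hc1]
      omega
    · rw [hc2]
      omega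
    · intro i hi
      have hi' : i = 0 ∨ i = 1 := by omega
      rcases hi' with rfl | rfl
      · rw [h0, e0]
      · rw [h1', e1]
    · rw [h2, show n + 2 - 1 = n + 1 by omega, hc1]
      omega

lemma num2 (n r : ℕ) (hn : 8 ≤ n) (h3 : 3 ≤ r) (hr : r + n + 3 ≤ (n + 1).choose 2) :
    n * (1 + n + r) < ((n + 1).choose 2 - r) * r := by
  obtain ⟨t, ht⟩ := Nat.exists_eq_add_of_le hr
  have h2 := choose_two n
  have h5 : (n + 1).choose 2 - r = n + 3 + t := by omega
  rw [h5]
  rw [ht] at h2
  obtain ⟨q, rfl⟩ := Nat.exists_eq_add_of_le h3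
  nlinarith [Nat.zero_le (q * t), Nat.zero_le t, Nat.zero_le q]

/-- Let `k` be an algebraically closed field, `n ≥ 4`, `1 ≤ r ≤ n (n + 1) / 2` and
`d = 1 + n + r`.
(1) If `r > (n ^ 2 - 1) / 3` then the closure of `VC_{n, d}` is not an irreducible component of
the Hilbert scheme of `d` points of affine `n`-space.
(2) If `n d < r (n (n + 1) / 2 - r)` then `VC_{n, d}` is not contained in the smoothable
component.
(3) If `n ≥ 8` and `3 ≤ r ≤ n (n + 1) / 2 - n - 3` then `VC_{n, d}` is not contained in the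
smoothable component. -/
theorem result (k : Type u) [Field k] [IsAlgClosed k] (n r : ℕ) (hn : 4 ≤ n) (h1 : 1 ≤ r)
    (hr : r ≤ (n + 1).choose 2) :
    ∃ 𝓗 : HilbertScheme k (MvPolynomial (Fin n) k) (1 + n + r),
      (n ^ 2 < 3 * r + 1 → closure (𝓗.locus (HasHF n r)) ∉ irreducibleComponents 𝓗.H) ∧
      (n * (1 + n + r) < ((n + 1).choose 2 - r) * r →
        ¬ (𝓗.locus (HasHF n r) ⊆ closure (𝓗.locus Ideal.IsRadical))) ∧
      (8 ≤ n → 3 ≤ r → r + n + 3 ≤ (n + 1).choose 2 →
        ¬ (𝓗.locus (HasHF n r) ⊆ closure (𝓗.locus Ideal.IsRadical))) := by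
  have hn0 : 1 ≤ n := by omega
  have hfun : (HasHF n r : Ideal (MvPolynomial (Fin n) k) → Prop) = IsVeryCompressed (1 + n + r) :=
    funext fun I => propext (isVeryCompressed_iff n r hn0 h1 hr I).symm
  have hd1 : n + 1 < 1 + n + r := by omega
  have hd2 : 1 + n + r ≤ (n + 2).choose n := by
    have := choose_n n
    omega
  have hns : n * (1 + n + r) < ((n + 1).choose 2 - r) * r →
      ¬ ((hilb k (MvPolynomial (Fin n) k) (1 + n + r)).locus (HasHF n r) ⊆
        closure ((hilb k (MvPolynomial (Fin n) k) (1 + n + r)).locus Ideal.IsRadical)) := by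
    intro hnum h
    obtain ⟨M, hM, hMc⟩ := Finset.exists_subset_card_eq (s := S2 n) (n := r)
      (by rw [card_S2]; exact hr)
    have hd : n + 1 + M.card = 1 + n + r := by omega
    have hE : Fintype.card (DD M hM (1 + n + r) hd).E = 1 + n + r - (n + 1) := by
      rw [card_E, hMc]; omega
    rw [hfun] at h
    apply famClosure_not_smoothable (k := k) (DD M hM (1 + n + r) hd)
      (by rw [card_E, card_N, hMc]; exact hnum)
    refine (famClosure_subset (DD M hM (1 + n + r) hd) (IsVeryCompressed (1 + n + r))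
      fun a => ?_).trans (closure_minimal h isClosed_closure)
    exact isVeryCompressed_of_bounds (DD M hM (1 + n + r) hd) _ hn0 hd1 hd2 hE
      (qchart_cube (DD M hM (1 + n + r) hd) a) (qchart_sq (DD M hM (1 + n + r) hd) a)
  refine ⟨hilb k (MvPolynomial (Fin n) k) (1 + n + r), ?_, hns, ?_⟩
  · intro h3
    have hnr : n < r := by nlinarith
    obtain ⟨z0, z1, M, hz, hM0, hM, hMc⟩ := exists_M n r hnr hr
    have hd : n + 1 + M.card = 1 + n + r := by omega
    have hE : Fintype.card (DD M hM (1 + n + r) hd).E = 1 + n + r - (n + 1) := by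
      rw [card_E, hMc]; omega
    rw [hfun]
    refine closure_not_component (DD M hM (1 + n + r) hd)
      (TT M hM (1 + n + r) hd z0 z1 hz hM0) hn0 hd1 hd2 hE ?_ ?_
    · rw [card_N, hMc, Sym.card_sym_eq_choose, Fintype.card_fin]
      exact num1 n r hnr hr h3
    · rw [card_E, hMc]
      exact hnr
  · intro h8 h3 hr3
    exact hns (num2 n r h8 h3 hr3)

end Pool.Agent.Results.MP_490634_ag.NotComponent
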